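import Mathlib

/-!
# The first two terms of a Hilbert polynomial
-/

set_option autoImplicit false

namespace Pool.Agent.Q120.EC

open MvPolynomial Finset Filter Topology

lemma tendsto_quot (E : ℝ) : Tendsto (fun a : ℕ => ((a : ℝ) + E) / a) atTop (𝓝 1) := by
  have h1 : Tendsto (fun a : ℕ => 1 + E / (a : ℝ)) atTop (𝓝 (1 + 0)) :=
    tendsto_const_nhds.add (tendsto_const_nhds.div_atTop tendsto_natCast_atTop_atTop)
  rw [add_zero] at h1
  refine h1.congr' ?_
  filter_upwards [eventually_gt_atTop 0] with a ha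
  have : (a : ℝ) ≠ 0 := by positivity
  field_simp

lemma tendsto_pow_quot (E : ℝ) {j K : ℕ} (h : j ≤ K) :
    Tendsto (fun a : ℕ => ((a : ℝ) + E) ^ j / (a : ℝ) ^ K) atTop
      (𝓝 (if j = K then 1 else 0)) := by
  have h1 : Tendsto (fun a : ℕ => (((a : ℝ) + E) / a) ^ j * (1 / (a : ℝ)) ^ (K - j)) atTop
      (𝓝 (1 ^ j * 0 ^ (K - j))) := by
    apply Tendsto.mul
    · exact (tendsto_quot E).pow j
    · exact (tendsto_const_nhds.div_atTop tendsto_natCast_atTop_atTop).pow _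
  have e : (1 : ℝ) ^ j * 0 ^ (K - j) = if j = K then 1 else 0 := by
    rw [one_pow, one_mul]
    split_ifs with hj
    · rw [hj, Nat.sub_self, pow_zero]
    · exact zero_pow (by omega)
  rw [e] at h1
  refine h1.congr' ?_
  filter_upwards [eventually_gt_atTop 0] with a ha
  have ha' : (a : ℝ) ≠ 0 := by positivity
  have : (a : ℝ) ^ K = (a : ℝ) ^ j * (a : ℝ) ^ (K - j) := by
    rw [← pow_add]; congr 1; omega
  rw [this, div_pow, div_pow, one_pow]
  field_simp

lemma tendsto_diff (E : ℝ) (K : ℕ) :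
    Tendsto (fun a : ℕ => (((a : ℝ) + E) ^ (K + 1) - (a : ℝ) ^ (K + 1)) / (a : ℝ) ^ K) atTop
      (𝓝 ((K + 1 : ℕ) * E)) := by
  have h1 : Tendsto (fun a : ℕ => E * ∑ i ∈ range (K + 1), (((a : ℝ) + E) / a) ^ i) atTop
      (𝓝 (E * ∑ i ∈ range (K + 1), 1 ^ i)) := by
    apply Tendsto.mul tendsto_const_nhds
    apply tendsto_finsetSum
    intro i _
    exact (tendsto_quot E).pow i
  have e : E * ∑ i ∈ range (K + 1), (1 : ℝ) ^ i = (K + 1 : ℕ) * E := by
    simp only [one_pow, sum_const, card_range, nsmul_eq_mul, mul_one]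
    ring
  rw [e] at h1
  refine h1.congr' ?_
  filter_upwards [eventually_gt_atTop 0] with a ha
  have ha' : (a : ℝ) ≠ 0 := by positivity
  have h2 := geom_sum₂_mul ((a : ℝ) + E) (a : ℝ) (K + 1)
  rw [← h2]
  have h3 : (a : ℝ) + E - a = E := by ring
  rw [h3, eq_div_iff (pow_ne_zero _ ha'), mul_assoc, mul_comm (∑ i ∈ range (K + 1), _) E]
  congr 1
  rw [Finset.sum_mul]
  apply Finset.sum_congr rfl
  intro i hi
  rw [mem_range] at hi
  have h4 : (a : ℝ) ^ K = (a : ℝ) ^ i * (a : ℝ) ^ (K - i) := by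
    rw [← pow_add]; congr 1; omega
  rw [h4, div_pow]
  have h5 : K + 1 - 1 - i = K - i := by omega
  rw [h5]
  field_simp

lemma tendsto_eval (R : MvPolynomial (Fin 2) ℝ) {k : ℕ} (hR : R.totalDegree < k) (E b : ℝ) :
    Tendsto (fun a : ℕ => eval ![(a : ℝ) + E, b] R / (a : ℝ) ^ (k - 1)) atTop
      (𝓝 (coeff (Finsupp.single 0 (k - 1)) R)) := by
  classical
  have h1 : ∀ m ∈ R.support, Tendsto (fun a : ℕ => coeff m R * b ^ (m 1) *
      (((a : ℝ) + E) ^ (m 0) / (a : ℝ) ^ (k - 1))) atTop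
      (𝓝 (if m = Finsupp.single 0 (k - 1) then coeff m R else 0)) := by
    intro m hm
    have h2 : m 0 + m 1 ≤ R.totalDegree := by
      have := le_totalDegree hm
      rw [Finsupp.sum_fintype _ _ (by simp), Fin.sum_univ_two] at this
      exact this
    have h3 := (tendsto_pow_quot E (j := m 0) (K := k - 1) (by omega)).const_mul
      (coeff m R * b ^ (m 1))
    have h4 : coeff m R * b ^ (m 1) * (if m 0 = k - 1 then (1 : ℝ) else 0) =
        if m = Finsupp.single 0 (k - 1) then coeff m R else 0 := by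
      by_cases h5 : m 0 = k - 1
      · have h6 : m 1 = 0 := by omega
        rw [if_pos h5, if_pos, h6]
        · simp
        · ext i
          fin_cases i
          · simp [h5]
          · simp [h6]
      · rw [if_neg h5, if_neg, mul_zero]
        intro h6
        apply h5
        rw [h6]
        simp
    rw [h4] at h3
    exact h3
  have h2 := tendsto_finsetSum R.support h1
  rw [Finset.sum_ite_eq'] at h2
  have h3 : (if Finsupp.single 0 (k - 1) ∈ R.support then
      coeff (Finsupp.single 0 (k - 1)) R else 0) = coeff (Finsupp.single 0 (k - 1)) R := by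
    split_ifs with h
    · rfl
    · rw [mem_support_iff, not_not] at h
      exact h.symm
  rw [h3] at h2
  refine h2.congr ?_
  intro a
  rw [eval_eq', Finset.sum_div]
  apply Finset.sum_congr rfl
  intro m _
  rw [Fin.prod_univ_two]
  simp only [Matrix.cons_val_zero, Matrix.cons_val_one]
  ring

/-- The function `h` is given by a polynomial with top part
`(z₀ a^k + k z₁ a^(k-1) b) / k!` for large arguments. -/
def HilbertTop (k : ℕ) (h : ℕ → ℕ → ℕ) (z₀ z₁ : ℕ) : Prop :=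
  ∃ R : MvPolynomial (Fin 2) ℝ, R.totalDegree < k ∧ ∃ N : ℕ, ∀ a b : ℕ, N ≤ a → N ≤ b →
    (h a b : ℝ) = (z₀ * (a : ℝ) ^ k + k * z₁ * (a : ℝ) ^ (k - 1) * b) / (k.factorial : ℝ) +
      eval ![(a : ℝ), (b : ℝ)] R

lemma HilbertTop.tendsto {k : ℕ} {h : ℕ → ℕ → ℕ} {z₀ z₁ : ℕ} (H : HilbertTop k h z₀ z₁) :
    ∃ (ρ : ℝ) (N : ℕ), ∀ E b : ℕ, N ≤ b → Tendsto (fun a : ℕ => ((h (a + E) b : ℝ) -
      z₀ * (a : ℝ) ^ k / (k.factorial : ℝ)) / (a : ℝ) ^ (k - 1)) atTop
      (𝓝 (k / (k.factorial : ℝ) * (z₀ * E + z₁ * b) + ρ)) := by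
  obtain ⟨R, hR, N, hN⟩ := H
  refine ⟨coeff (Finsupp.single 0 (k - 1)) R, N, ?_⟩
  intro E b hb
  have hk : k = (k - 1) + 1 := by omega
  have h1 := tendsto_eval R hR (E : ℝ) (b : ℝ)
  have h2 := tendsto_diff (E : ℝ) (k - 1)
  rw [← hk] at h2
  have h3 := tendsto_pow_quot (E : ℝ) (le_refl (k - 1))
  rw [if_pos rfl] at h3
  have h4 := ((h2.const_mul ((z₀ : ℝ) / k.factorial)).add
    (h3.const_mul ((k : ℝ) * z₁ * b / k.factorial))).add h1
  have e : (z₀ : ℝ) / k.factorial * (k * E) + (k : ℝ) * z₁ * b / k.factorial * 1 +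
      coeff (Finsupp.single 0 (k - 1)) R =
      k / (k.factorial : ℝ) * (z₀ * E + z₁ * b) + coeff (Finsupp.single 0 (k - 1)) R := by ring
  rw [e] at h4
  refine h4.congr' ?_
  filter_upwards [eventually_ge_atTop (max N 1)] with a ha
  have ha' : (a : ℝ) ≠ 0 := by
    have : 1 ≤ a := le_trans (le_max_right _ _) ha
    positivity
  have haN : N ≤ a + E := le_trans (le_trans (le_max_left _ _) ha) (Nat.le_add_right _ _)
  rw [hN (a + E) b haN hb]
  push_cast
  ring

lemma HilbertTop.compare {k : ℕ} {h : ℕ → ℕ → ℕ} {z₀ z₁ : ℕ} (H : HilbertTop k h z₀ z₁)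
    {D : ℕ} (E : ℕ) (b' : ℕ) (hle : ∃ N : ℕ, ∀ a b : ℕ, N ≤ a → N ≤ b →
      h (a + E) (b + b') ≤ h (a + D) b) :
    (z₀ : ℝ) * E + z₁ * b' ≤ z₀ * D := by
  have hk : 0 < k := by
    obtain ⟨R, hR, _⟩ := H
    omega
  obtain ⟨ρ, N, hN⟩ := H.tendsto
  obtain ⟨M, hM⟩ := hle
  have h1 := hN E (max N M + b') (le_trans (le_max_left _ _) (Nat.le_add_right _ _))
  have h2 := hN D (max N M) (le_max_left _ _)
  have h3 : k / (k.factorial : ℝ) * (z₀ * E + z₁ * ((max N M + b' : ℕ) : ℝ)) + ρ ≤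
      k / (k.factorial : ℝ) * (z₀ * D + z₁ * ((max N M : ℕ) : ℝ)) + ρ := by
    refine le_of_tendsto_of_tendsto h1 h2 ?_
    filter_upwards [eventually_ge_atTop M] with a ha
    have h4 := hM a (max N M) ha (le_max_right _ _)
    have h5 : (h (a + E) (max N M + b') : ℝ) ≤ (h (a + D) (max N M) : ℝ) := by exact_mod_cast h4
    apply div_le_div_of_nonneg_right _ (by positivity)
    linarith
  have h6 : (0 : ℝ) < k / (k.factorial : ℝ) := by positivity
  have h7 : (z₀ * E + z₁ * ((max N M + b' : ℕ) : ℝ)) ≤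
      (z₀ * D + z₁ * ((max N M : ℕ) : ℝ)) := by
    have h8 := le_of_add_le_add_right h3
    exact le_of_mul_le_mul_left h8 h6
  push_cast at h7
  linarith

end Pool.Agent.Q120.EC
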