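import Mathlib

/-!
# Bihomogeneous forms on `P^(n-1) x P^1` and curves given by bihomogeneous prime ideals
-/

set_option autoImplicit false

namespace Pool.Agent.Q120.EC

open MvPolynomial Finset

/-- The variables: `n` variables for `P^(n-1)` and two variables for `P^1`. -/
abbrev Var (n : ℕ) := Fin n ⊕ Fin 2

/-- The bidegrees of the variables. -/
def bideg (n : ℕ) : Var n → ℕ × ℕ
  | Sum.inl _ => (1, 0)
  | Sum.inr _ => (0, 1)

/-- The forms of bidegree `(a, b)`. -/
def forms (n a b : ℕ) : Submodule ℂ (MvPolynomial (Var n) ℂ) :=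
  weightedHomogeneousSubmodule ℂ (bideg n) (a, b)

/-- The forms of bidegree `(a, b)` modulo an ideal. -/
noncomputable def part {n : ℕ} (I : Ideal (MvPolynomial (Var n) ℂ)) (a b : ℕ) :
    Submodule ℂ (MvPolynomial (Var n) ℂ ⧸ I) :=
  (forms n a b).map (Ideal.Quotient.mkₐ ℂ I).toLinearMap

lemma weight_eq {n : ℕ} (m : Var n →₀ ℕ) :
    Finsupp.weight (bideg n) m = (∑ i, m (Sum.inl i), m (Sum.inr 0) + m (Sum.inr 1)) := by
  rw [Finsupp.weight_apply, Finsupp.sum_fintype _ _ (by intro i; simp)]
  rw [Fintype.sum_sum_type]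
  simp only [bideg, Fin.sum_univ_two]
  ext
  · simp [Prod.fst_sum]
  · simp [Prod.snd_sum]

lemma mem_forms {n a b : ℕ} {f : MvPolynomial (Var n) ℂ} :
    f ∈ forms n a b ↔ ∀ m, coeff m f ≠ 0 →
      ∑ i, m (Sum.inl i) = a ∧ m (Sum.inr 0) + m (Sum.inr 1) = b := by
  unfold forms
  rw [mem_weightedHomogeneousSubmodule]
  unfold IsWeightedHomogeneous
  constructor
  · intro h m hm
    have := h hm
    rw [weight_eq] at this
    exact ⟨congrArg Prod.fst this, congrArg Prod.snd this⟩
  · intro h m hm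
    rw [weight_eq]
    have := h m hm
    rw [this.1, this.2]

lemma mul_mem_forms {n a b a' b' : ℕ} {f g : MvPolynomial (Var n) ℂ} (hf : f ∈ forms n a b)
    (hg : g ∈ forms n a' b') : f * g ∈ forms n (a + a') (b + b') := by
  unfold forms at *
  rw [mem_weightedHomogeneousSubmodule] at *
  exact hf.mul hg

lemma monomial_mem_forms {n a b : ℕ} {m : Var n →₀ ℕ} (c : ℂ)
    (h1 : ∑ i, m (Sum.inl i) = a) (h2 : m (Sum.inr 0) + m (Sum.inr 1) = b) :
    monomial m c ∈ forms n a b := by
  classical
  rw [mem_forms]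
  intro m' hm'
  rw [coeff_monomial] at hm'
  split_ifs at hm' with h
  · subst h; exact ⟨h1, h2⟩
  · exact absurd rfl hm'

lemma S_mem (n : ℕ) (j : Fin 2) : (X (Sum.inr j) : MvPolynomial (Var n) ℂ) ∈ forms n 0 1 := by
  apply monomial_mem_forms
  · simp
  · fin_cases j <;> simp

lemma X_mem {n : ℕ} (i : Fin n) : (X (Sum.inl i) : MvPolynomial (Var n) ℂ) ∈ forms n 1 0 := by
  classical
  apply monomial_mem_forms
  · rw [Finset.sum_eq_single i]
    · simp
    · intro b _ hb
      rw [Finsupp.single_apply, if_neg]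
      intro h
      exact hb (Sum.inl_injective h).symm
    · simp
  · simp

lemma pow_mem_forms {n a b : ℕ} {f : MvPolynomial (Var n) ℂ} (hf : f ∈ forms n a b) (k : ℕ) :
    f ^ k ∈ forms n (k * a) (k * b) := by
  induction k with
  | zero =>
    simp only [pow_zero, zero_mul]
    have : (1 : MvPolynomial (Var n) ℂ) = monomial 0 1 := rfl
    rw [this]
    exact monomial_mem_forms _ (by simp) (by simp)
  | succ k ih =>
    rw [pow_succ, Nat.succ_mul, Nat.succ_mul]
    exact mul_mem_forms ih hf

/-- A property of forms which holds for the monomials and is linear holds for all forms. -/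
lemma forms_induction {n a b : ℕ} (V : Submodule ℂ (MvPolynomial (Var n) ℂ))
    (h : ∀ m : Var n →₀ ℕ, ∑ i, m (Sum.inl i) = a → m (Sum.inr 0) + m (Sum.inr 1) = b →
      monomial m 1 ∈ V) {f : MvPolynomial (Var n) ℂ} (hf : f ∈ forms n a b) : f ∈ V := by
  rw [f.as_sum]
  apply Submodule.sum_mem
  intro m hm
  rw [mem_support_iff] at hm
  have := mem_forms.1 hf m hm
  have e : monomial m (coeff m f) = coeff m f • (monomial m (1 : ℂ)) := by
    rw [smul_monomial]; simp
  rw [e]
  exact V.smul_mem _ (h m this.1 this.2)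

/-- The coefficient of `s^j t^(e-j)` of a form of bidegree `(d, e)`. -/
noncomputable def cf {n : ℕ} (F : MvPolynomial (Var n) ℂ) (j : ℕ) : MvPolynomial (Var n) ℂ :=
  ∑ m ∈ F.support.filter (fun m => m (Sum.inr 0) = j),
    monomial (m - Finsupp.single (Sum.inr 0) (m (Sum.inr 0)) -
      Finsupp.single (Sum.inr 1) (m (Sum.inr 1))) (coeff m F)

lemma cf_mem {n d e : ℕ} {F : MvPolynomial (Var n) ℂ} (hF : F ∈ forms n d e) (j : ℕ) :
    cf F j ∈ forms n d 0 := by
  apply Submodule.sum_mem
  intro m hm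
  rw [mem_filter, mem_support_iff] at hm
  have h := mem_forms.1 hF m hm.1
  apply monomial_mem_forms
  · rw [← h.1]
    apply Finset.sum_congr rfl
    intro i _
    simp
  · simp

lemma eq_sum_cf {n d e : ℕ} {F : MvPolynomial (Var n) ℂ} (hF : F ∈ forms n d e) :
    F = ∑ j ∈ range (e + 1), cf F j * (X (Sum.inr 0) ^ j * X (Sum.inr 1) ^ (e - j)) := by
  classical
  conv_lhs => rw [F.as_sum]
  have h : ∀ j ∈ range (e + 1), cf F j * (X (Sum.inr 0) ^ j * X (Sum.inr 1) ^ (e - j)) =
      ∑ m ∈ F.support.filter (fun m => m (Sum.inr 0) = j), monomial m (coeff m F) := by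
    intro j hj
    unfold cf
    rw [Finset.sum_mul]
    apply Finset.sum_congr rfl
    intro m hm
    rw [mem_filter, mem_support_iff] at hm
    have h := mem_forms.1 hF m hm.1
    rw [X_pow_eq_monomial, X_pow_eq_monomial, monomial_mul, monomial_mul]
    have e1 : m - Finsupp.single (Sum.inr 0) (m (Sum.inr 0)) -
        Finsupp.single (Sum.inr 1) (m (Sum.inr 1)) +
        (Finsupp.single (Sum.inr 0) j + Finsupp.single (Sum.inr 1) (e - j)) = m := by
      ext v
      rcases v with i | v
      · simp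
      · fin_cases v
        · simp [← hm.2]
        · simp
          omega
    rw [e1, mul_one, mul_one]
  rw [Finset.sum_congr rfl h]
  rw [Finset.sum_fiberwise_of_maps_to]
  intro m hm
  rw [mem_support_iff] at hm
  have := mem_forms.1 hF m hm
  rw [mem_range]
  omega

end Pool.Agent.Q120.EC
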