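import Pool.Agent.Q120.EC.Ineq

/-!
# The coefficients of a general form of bidegree `(d, e)` have no common zero

The condition is that a determinant in the coefficients of the form does not vanish.
-/

set_option autoImplicit false

namespace Pool.Agent.Q120.EC

open MvPolynomial Finset

/-- The exponent with given `x`, `s` and `t` parts. -/
noncomputable def emb {n : ℕ} (q : Fin n →₀ ℕ) (j k : ℕ) : Var n →₀ ℕ :=
  Finsupp.sumElim q (Finsupp.equivFunOnFinite.symm ![j, k])

@[simp] lemma emb_inl {n : ℕ} (q : Fin n →₀ ℕ) (j k : ℕ) (i : Fin n) :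
    emb q j k (Sum.inl i) = q i := by simp [emb]

@[simp] lemma emb_inr0 {n : ℕ} (q : Fin n →₀ ℕ) (j k : ℕ) :
    emb q j k (Sum.inr 0) = j := by simp [emb]

@[simp] lemma emb_inr1 {n : ℕ} (q : Fin n →₀ ℕ) (j k : ℕ) :
    emb q j k (Sum.inr 1) = k := by simp [emb]

lemma eq_emb {n : ℕ} (m : Var n →₀ ℕ) (q : Fin n →₀ ℕ) (j k : ℕ)
    (h1 : ∀ i, m (Sum.inl i) = q i) (h2 : m (Sum.inr 0) = j) (h3 : m (Sum.inr 1) = k) :
    m = emb q j k := by
  ext v
  rcases v with i | v
  · simp [h1]
  · fin_cases v
    · simp [h2]
    · simp [h3]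

lemma emb_inj {n : ℕ} {q q' : Fin n →₀ ℕ} {j k j' k' : ℕ} (h : emb q j k = emb q' j' k') :
    q = q' ∧ j = j' ∧ k = k' := by
  refine ⟨?_, ?_, ?_⟩
  · ext i
    have := DFunLike.congr_fun h (Sum.inl i)
    simpa using this
  · have := DFunLike.congr_fun h (Sum.inr 0)
    simpa using this
  · have := DFunLike.congr_fun h (Sum.inr 1)
    simpa using this

lemma coeff_cf {n d e : ℕ} {F : MvPolynomial (Var n) ℂ} (hF : F ∈ forms n d e) {j : ℕ}
    (q : Fin n →₀ ℕ) : coeff (emb q 0 0) (cf F j) = coeff (emb q j (e - j)) F := by
  classical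
  unfold cf
  rw [coeff_sum]
  have h : ∀ m ∈ F.support.filter (fun m => m (Sum.inr 0) = j),
      coeff (emb q 0 0) (monomial (m - Finsupp.single (Sum.inr 0) (m (Sum.inr 0)) -
      Finsupp.single (Sum.inr 1) (m (Sum.inr 1))) (coeff m F)) =
      if m = emb q j (e - j) then coeff m F else 0 := by
    intro m hm
    rw [mem_filter, mem_support_iff] at hm
    have h2 := mem_forms.1 hF m hm.1
    rw [coeff_monomial]
    congr 1
    apply propext
    constructor
    · intro h3
      apply eq_emb
      · intro i
        have := DFunLike.congr_fun h3 (Sum.inl i)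
        simpa using this
      · exact hm.2
      · omega
    · intro h3
      apply eq_emb
      · intro i
        have := DFunLike.congr_fun h3 (Sum.inl i)
        simpa using this
      · simp
      · simp
  rw [Finset.sum_congr rfl h, Finset.sum_ite_eq']
  split_ifs with h1
  · rfl
  · rw [mem_filter, mem_support_iff] at h1
    by_contra hcon
    apply h1
    exact ⟨fun h => hcon h.symm, by simp⟩

/-- The exponents of degree `N` in the variables `x`. -/
abbrev Idx (n N : ℕ) := {m : Fin n →₀ ℕ // m ∈ (Finset.univ : Finset (Fin n)).finsuppAntidiag N}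

lemma idx_sum {n N : ℕ} (m : Idx n N) : ∑ i, m.1 i = N := by
  have := m.2
  rw [mem_finsuppAntidiag] at this
  exact this.1

/-- The matrix of the multiplication map, with the coefficients of the form as variables. -/
noncomputable def P {n : ℕ} (d e N : ℕ) (c : Idx n N → Fin n) :
    Matrix (Idx n N) (Idx n N) (MvPolynomial (Var n →₀ ℕ) ℂ) :=
  open Classical in fun m' m =>
    if m.1 - Finsupp.single (c m) d ≤ m'.1 then
      X (emb (m'.1 - (m.1 - Finsupp.single (c m) d)) (c m) (e - c m)) else 0

/-- The value of a polynomial in the coefficients at a form. -/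
noncomputable def value {n : ℕ} (Φ : MvPolynomial (Var n →₀ ℕ) ℂ) (F : MvPolynomial (Var n) ℂ) :
    ℂ := eval (fun m => coeff m F) Φ

lemma emb_le {n : ℕ} {q q' : Fin n →₀ ℕ} : emb q 0 0 ≤ emb q' 0 0 ↔ q ≤ q' := by
  constructor
  · intro h i
    have := h (Sum.inl i)
    simpa using this
  · intro h v
    rcases v with i | v
    · simpa using h i
    · fin_cases v <;> simp

lemma emb_sub {n : ℕ} (q q' : Fin n →₀ ℕ) : emb q 0 0 - emb q' 0 0 = emb (q - q') 0 0 := by
  apply eq_emb <;> simp

/-- The evaluated matrix. -/
lemma P_eval {n : ℕ} {d e N : ℕ} (c : Idx n N → Fin n) {F : MvPolynomial (Var n) ℂ}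
    (hF : F ∈ forms n d e) (m' m : Idx n N) :
    eval (fun m => coeff m F) (P d e N c m' m) =
      coeff (emb m'.1 0 0) (monomial (emb (m.1 - Finsupp.single (c m) d) 0 0) 1 *
        cf F (c m)) := by
  classical
  unfold P
  rw [coeff_monomial_mul']
  by_cases h : m.1 - Finsupp.single (c m) d ≤ m'.1
  · rw [if_pos h, if_pos (emb_le.2 h), eval_X, one_mul, emb_sub, coeff_cf hF]
  · rw [if_neg h, if_neg (fun h' => h (emb_le.1 h'))]
    simp

lemma P_homog {n : ℕ} (d e N : ℕ) (c : Idx n N → Fin n) :
    (P d e N c).det.IsHomogeneous (Fintype.card (Idx n N)) := by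
  classical
  rw [Matrix.det_apply]
  rw [← mem_homogeneousSubmodule]
  apply Submodule.sum_mem
  intro σ _
  have h : ∏ i, P d e N c (σ i) i ∈ homogeneousSubmodule (Var n →₀ ℕ) ℂ
      (Fintype.card (Idx n N)) := by
    rw [mem_homogeneousSubmodule]
    have h2 := IsHomogeneous.prod (R := ℂ) Finset.univ (fun i => P d e N c (σ i) i)
      (fun _ => 1) (by
        intro i _
        unfold P
        split_ifs
        · exact isHomogeneous_X _ _
        · exact isHomogeneous_zero _ _ _)
    simpa using h2
  rcases Int.units_eq_one_or (Equiv.Perm.sign σ) with h1 | h1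
  · rw [h1, one_smul]
    exact h
  · rw [h1, Units.neg_smul, one_smul]
    exact Submodule.neg_mem _ h

lemma mem_of_det {n : ℕ} {d e N : ℕ} (c : Idx n N → Fin n)
    (hc : ∀ m : Idx n N, d ≤ m.1 (c m)) {F : MvPolynomial (Var n) ℂ}
    (hF : F ∈ forms n d e) (hdet : value (P d e N c).det F ≠ 0)
    {I : Ideal (MvPolynomial (Var n) ℂ)} (hI : ∀ j : Fin n, cf F j ∈ I) (i : Fin n) :
    (X (Sum.inl i) : MvPolynomial (Var n) ℂ) ^ N ∈ I := by
  classical
  set M : Matrix (Idx n N) (Idx n N) ℂ := (P d e N c).map (eval (fun m => coeff m F)) with hM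
  have hMdet : M.det ≠ 0 := by
    have : value (P d e N c).det F = M.det := by
      unfold value
      rw [RingHom.map_det]
      rfl
    rw [← this]
    exact hdet
  have hmem : Finsupp.single i N ∈ (Finset.univ : Finset (Fin n)).finsuppAntidiag N := by
    rw [mem_finsuppAntidiag]
    refine ⟨?_, by simp⟩
    have : ∑ k, (Finsupp.single i N) k = N := by
      rw [Finset.sum_eq_single i]
      · simp
      · intro b _ hb
        rw [Finsupp.single_apply, if_neg (Ne.symm hb)]
      · simp
    exact this
  set v : Idx n N → ℂ := M⁻¹.mulVec (Pi.single ⟨Finsupp.single i N, hmem⟩ 1) with hv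
  have hMv : M.mulVec v = Pi.single ⟨Finsupp.single i N, hmem⟩ 1 := by
    rw [hv, Matrix.mulVec_mulVec, Matrix.mul_nonsing_inv _ (Ne.isUnit hMdet),
      Matrix.one_mulVec]
  have hG : (X (Sum.inl i) : MvPolynomial (Var n) ℂ) ^ N =
      ∑ m : Idx n N, v m • (monomial (emb (m.1 - Finsupp.single (c m) d) 0 0) 1 *
        cf F (c m)) := by
    have hX : (X (Sum.inl i) : MvPolynomial (Var n) ℂ) ^ N =
        monomial (emb (Finsupp.single i N) 0 0) 1 := by
      rw [X_pow_eq_monomial]
      congr 1
      congr 1
      apply eq_emb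
      · intro k
        by_cases hk : k = i
        · subst hk; simp
        · rw [Finsupp.single_apply, Finsupp.single_apply, if_neg (Ne.symm hk), if_neg]
          intro h
          exact hk (Sum.inl_injective h).symm
      · simp
      · simp
    have hR : ∑ m : Idx n N, v m • (monomial (emb (m.1 - Finsupp.single (c m) d) 0 0) 1 *
        cf F (c m)) ∈ forms n N 0 := by
      apply Submodule.sum_mem
      intro m _
      apply Submodule.smul_mem
      have h1 : monomial (emb (m.1 - Finsupp.single (c m) d) 0 0) (1 : ℂ) ∈
          forms n (N - d) 0 := by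
        apply monomial_mem_forms
        · have h2 := idx_sum m
          have h3 : ∑ k, ((m.1 - Finsupp.single (c m) d) k + (Finsupp.single (c m) d) k) = N := by
            refine Eq.trans ?_ h2
            apply Finset.sum_congr rfl
            intro k _
            by_cases hk : k = c m
            · subst hk
              have := hc m
              simp
              omega
            · simp [Ne.symm hk]
          rw [Finset.sum_add_distrib] at h3
          have h4 : ∑ k, (Finsupp.single (c m) d) k = d := by
            rw [Finset.sum_eq_single (c m)]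
            · simp
            · intro b _ hb
              rw [Finsupp.single_apply, if_neg (Ne.symm hb)]
            · simp
          rw [h4] at h3
          simp only [emb_inl]
          omega
        · simp
      have h5 := mul_mem_forms h1 (cf_mem hF (c m))
      have h6 : N - d + d = N := by
        have h7 := idx_sum m
        have h8 : m.1 (c m) ≤ ∑ k, m.1 k :=
          Finset.single_le_sum (f := fun k => m.1 k) (fun _ _ => Nat.zero_le _) (mem_univ _)
        have := hc m
        omega
      rw [h6] at h5
      exact h5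
    rw [hX]
    ext m
    by_cases hm : ∑ k, m (Sum.inl k) = N ∧ m (Sum.inr 0) + m (Sum.inr 1) = 0
    · set q : Fin n →₀ ℕ := Finsupp.equivFunOnFinite.symm (fun k => m (Sum.inl k)) with hq
      have hmq : m = emb q 0 0 := by
        apply eq_emb
        · intro k; simp [hq]
        · omega
        · omega
      have hqm : q ∈ (Finset.univ : Finset (Fin n)).finsuppAntidiag N := by
        rw [mem_finsuppAntidiag]
        refine ⟨?_, by simp⟩
        have : ∑ k, q k = N := by
          rw [← hm.1]
          apply Finset.sum_congr rfl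
          intro k _
          simp [hq]
        exact this
      have h9 := congrFun hMv ⟨q, hqm⟩
      rw [Matrix.mulVec] at h9
      rw [hmq, coeff_monomial, coeff_sum]
      have h10 : ∑ m : Idx n N, coeff (emb q 0 0) (v m • (monomial
          (emb (m.1 - Finsupp.single (c m) d) 0 0) 1 * cf F (c m))) =
          dotProduct (fun m => M ⟨q, hqm⟩ m) v := by
        unfold dotProduct
        apply Finset.sum_congr rfl
        intro m _
        rw [coeff_smul, smul_eq_mul, mul_comm]
        congr 1
        exact (P_eval c hF ⟨q, hqm⟩ m).symm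
      rw [h10, h9, Pi.single_apply]
      congr 1
      apply propext
      constructor
      · intro h
        exact Subtype.ext (emb_inj h).1.symm
      · intro h
        have := congrArg Subtype.val h
        simp only at this
        rw [this]
    · have h1 : coeff m (monomial (emb (Finsupp.single i N) 0 0) (1 : ℂ)) = 0 := by
        by_contra hcon
        apply hm
        refine mem_forms.1 (monomial_mem_forms 1 ?_ ?_) m hcon
        · simp only [emb_inl]
          rw [Finset.sum_eq_single i]
          · simp
          · intro b _ hb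
            rw [Finsupp.single_apply, if_neg (Ne.symm hb)]
          · simp
        · simp
      have h2 := mem_forms.1 hR m
      rw [h1]
      by_contra hcon
      exact hm (h2 (fun h => hcon h.symm))
  rw [hG]
  apply Ideal.sum_mem
  intro m _
  rw [smul_eq_C_mul]
  apply I.mul_mem_left
  exact I.mul_mem_left _ (hI (c m))

/-- The form at which the determinant is one. -/
noncomputable def F0 (n d e : ℕ) : MvPolynomial (Var n) ℂ :=
  ∑ j : Fin n, monomial (emb (Finsupp.single j d) j (e - j)) 1

lemma F0_mem {n d e : ℕ} (hn : n ≤ e + 1) : F0 n d e ∈ forms n d e := by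
  apply Submodule.sum_mem
  intro j _
  apply monomial_mem_forms
  · simp only [emb_inl]
    rw [Finset.sum_eq_single j]
    · simp
    · intro b _ hb
      rw [Finsupp.single_apply, if_neg (Ne.symm hb)]
    · simp
  · simp only [emb_inr0, emb_inr1]
    have := j.2
    omega

lemma F0_coeff {n d e : ℕ} (j : Fin n) (q : Fin n →₀ ℕ) :
    coeff (emb q j (e - j)) (F0 n d e) = if q = Finsupp.single j d then 1 else 0 := by
  classical
  unfold F0
  rw [coeff_sum, Finset.sum_eq_single j]
  · rw [coeff_monomial]
    congr 1
    apply propext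
    constructor
    · intro h
      exact (emb_inj h).1.symm
    · intro h
      rw [h]
  · intro b _ hb
    rw [coeff_monomial, if_neg]
    intro h
    exact hb (Fin.ext (emb_inj h).2.1)
  · simp

lemma det_F0 {n : ℕ} {d e N : ℕ} (c : Idx n N → Fin n)
    (hc : ∀ m : Idx n N, d ≤ m.1 (c m)) : value (P d e N c).det (F0 n d e) = 1 := by
  classical
  unfold value
  rw [RingHom.map_det]
  have : (eval (fun m => coeff m (F0 n d e))).mapMatrix (P d e N c) = 1 := by
    ext m' m
    rw [RingHom.mapMatrix_apply, Matrix.map_apply, Matrix.one_apply]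
    unfold P
    have hm : m.1 = (m.1 - Finsupp.single (c m) d) + Finsupp.single (c m) d := by
      ext k
      by_cases hk : k = c m
      · subst hk
        have := hc m
        simp
        omega
      · simp [Ne.symm hk]
    split_ifs with h1 h2 h2
    · rw [eval_X, F0_coeff, if_pos]
      rw [h2]
      ext k
      have h3 := DFunLike.congr_fun hm k
      simp only [Finsupp.coe_add, Pi.add_apply, Finsupp.coe_tsub, Pi.sub_apply] at h3 ⊢
      omega
    · rw [eval_X, F0_coeff, if_neg]
      intro h3
      apply h2
      apply Subtype.ext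
      have h4 : m'.1 = (m.1 - Finsupp.single (c m) d) + (m'.1 - (m.1 - Finsupp.single (c m) d)) :=
        (add_tsub_cancel_of_le h1).symm
      rw [h3] at h4
      exact h4.trans hm.symm
    · exfalso
      apply h1
      rw [h2]
      exact tsub_le_self
    · simp
  rw [this, Matrix.det_one]

lemma exists_choice {n d N : ℕ} (hd : 1 ≤ d) (hN : N = n * (d - 1) + 1) (m : Idx n N) :
    ∃ i : Fin n, d ≤ m.1 i := by
  by_contra hcon
  push Not at hcon
  have h1 := idx_sum m
  have h2 : ∑ i, m.1 i ≤ ∑ _i : Fin n, (d - 1) := by
    apply Finset.sum_le_sum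
    intro i _
    have := hcon i
    omega
  rw [Finset.sum_const, card_univ, Fintype.card_fin, smul_eq_mul] at h2
  omega

/-- The general condition. -/
lemma exists_general (n d e : ℕ) (hd : 1 ≤ d) (hn : n ≤ e + 1) :
    ∃ (k : ℕ) (Φ : MvPolynomial (Var n →₀ ℕ) ℂ), Φ.IsHomogeneous k ∧
      (∃ F ∈ forms n d e, value Φ F ≠ 0) ∧
      ∀ F ∈ forms n d e, value Φ F ≠ 0 → ∀ I : Ideal (MvPolynomial (Var n) ℂ),
        (∀ j : Fin n, cf F j ∈ I) → ∀ i : Fin n, ∃ N : ℕ,
          (X (Sum.inl i) : MvPolynomial (Var n) ℂ) ^ N ∈ I := by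
  choose c hc using exists_choice (n := n) hd rfl
  refine ⟨_, (P d e _ c).det, P_homog d e _ c, ⟨F0 n d e, F0_mem hn, ?_⟩, ?_⟩
  · rw [det_F0 c hc]
    exact one_ne_zero
  · intro F hF hval I hI i
    exact ⟨_, mem_of_det c hc hF hval hI i⟩

end Pool.Agent.Q120.EC
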