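import Pool.Agent.Q120.EC.Det
import Pool.Agent.Q120.EC.Asym

/-!
# The Hilbert function of `P^(k-1) x P^1`, and the inequality for the degrees
-/

set_option autoImplicit false

namespace Pool.Agent.Q120.EC

open MvPolynomial Finset

/-- Set the variables `x_i` with `i ≥ k` equal to zero. -/
noncomputable def kill (n k : ℕ) : MvPolynomial (Var n) ℂ →ₐ[ℂ] MvPolynomial (Var n) ℂ :=
  aeval (fun v => open Classical in
    if (∃ i : Fin n, k ≤ (i : ℕ) ∧ v = Sum.inl i) then 0 else X v)

/-- The ideal of the subvariety `P^(k-1) x P^1` given by `x_i = 0` for `i ≥ k`. -/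
noncomputable def fib (n k : ℕ) : Ideal (MvPolynomial (Var n) ℂ) :=
  RingHom.ker (kill n k)

lemma kill_monomial {n : ℕ} (k : ℕ) (m : Var n →₀ ℕ) :
    kill n k (monomial m 1) =
      open Classical in if (∀ i : Fin n, k ≤ (i : ℕ) → m (Sum.inl i) = 0) then
        monomial m 1 else 0 := by
  classical
  unfold kill
  rw [aeval_monomial, map_one, one_mul]
  split_ifs with h
  · rw [monomial_eq, C_1, one_mul]
    apply Finsupp.prod_congr
    intro v hv
    rw [if_neg]
    rintro ⟨i, hi, rfl⟩
    rw [Finsupp.mem_support_iff] at hv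
    exact hv (h i hi)
  · push Not at h
    obtain ⟨i, hi, hm⟩ := h
    unfold Finsupp.prod
    apply Finset.prod_eq_zero (i := Sum.inl i)
    · rw [Finsupp.mem_support_iff]
      exact hm
    · beta_reduce
      rw [if_pos ⟨i, hi, rfl⟩]
      exact zero_pow hm

lemma coeff_kill {n : ℕ} (k : ℕ) (f : MvPolynomial (Var n) ℂ) (m : Var n →₀ ℕ) :
    coeff m (kill n k f) =
      open Classical in if (∀ i : Fin n, k ≤ (i : ℕ) → m (Sum.inl i) = 0) then
        coeff m f else 0 := by
  classical
  induction f using MvPolynomial.induction_on' with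
  | monomial u a =>
    have e : monomial u a = a • (monomial u (1 : ℂ)) := by
      rw [smul_monomial]; simp
    rw [e, map_smul, kill_monomial, coeff_smul, coeff_smul]
    by_cases hu : ∀ i : Fin n, k ≤ (i : ℕ) → u (Sum.inl i) = 0
    · rw [if_pos hu]
      split_ifs with hm
      · rfl
      · rw [coeff_monomial, if_neg, smul_zero]
        rintro rfl
        exact hm hu
    · rw [if_neg hu, coeff_zero, smul_zero]
      split_ifs with hm
      · rw [coeff_monomial, if_neg, smul_zero]
        rintro rfl
        exact hu hm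
      · rfl
  | add p q hp hq =>
    rw [map_add, coeff_add, hp, hq, coeff_add]
    split_ifs
    · rfl
    · simp

lemma mem_fib {n k : ℕ} {f : MvPolynomial (Var n) ℂ} :
    f ∈ fib n k ↔ ∀ m : Var n →₀ ℕ, (∀ i : Fin n, k ≤ (i : ℕ) → m (Sum.inl i) = 0) →
      coeff m f = 0 := by
  classical
  unfold fib
  rw [RingHom.mem_ker]
  constructor
  · intro h m hm
    have h1 := coeff_kill k f m
    rw [if_pos hm] at h1
    rw [← h1]
    have h2 : kill n k f = 0 := h
    rw [h2, coeff_zero]
  · intro h
    have : kill n k f = 0 := by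
      ext m
      rw [coeff_kill, coeff_zero]
      split_ifs with hm
      · exact h m hm
      · rfl
    exact this

lemma fib_prime (n k : ℕ) : (fib n k).IsPrime := by
  unfold fib
  exact RingHom.ker_isPrime _

lemma fib_homog {n k : ℕ} (f : MvPolynomial (Var n) ℂ) (hf : f ∈ fib n k) (a b : ℕ) :
    weightedHomogeneousComponent (bideg n) (a, b) f ∈ fib n k := by
  classical
  rw [mem_fib] at *
  intro m hm
  rw [coeff_weightedHomogeneousComponent]
  split_ifs
  · exact hf m hm
  · rfl

/-- Extension of an exponent by zero. -/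
noncomputable def extz {n k : ℕ} (P : Fin k → ℕ) : Fin n →₀ ℕ :=
  Finsupp.equivFunOnFinite.symm (fun i => if h : (i : ℕ) < k then P ⟨i, h⟩ else 0)

lemma extz_apply {n k : ℕ} (P : Fin k → ℕ) (i : Fin n) :
    extz P i = if h : (i : ℕ) < k then P ⟨i, h⟩ else 0 := rfl

lemma extz_sum {n k : ℕ} (hk : k ≤ n) (P : Fin k → ℕ) :
    ∑ i : Fin n, extz P i = ∑ j, P j := by
  symm
  apply Fintype.sum_of_injective (Fin.castLE hk) (Fin.castLE_injective hk)
  · intro i hi
    rw [extz_apply, dif_neg]
    intro h
    exact hi ⟨⟨i, h⟩, rfl⟩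
  · intro j
    rw [extz_apply, dif_pos (by simp)]
    rfl

lemma fib_finrank {n k : ℕ} (hk : k ≤ n) (a b : ℕ) :
    Module.finrank ℂ (part (fib n k) a b) = (k + a - 1).choose a * (b + 1) := by
  classical
  set ψ : (MvPolynomial (Var n) ℂ ⧸ fib n k) →ₗ[ℂ] MvPolynomial (Var n) ℂ :=
    (Ideal.kerLiftAlg (kill n k)).toLinearMap with hψ
  have hψi : Function.Injective ψ := Ideal.kerLiftAlg_injective (kill n k)
  have e1 : Module.finrank ℂ ((part (fib n k) a b).map ψ) =
      Module.finrank ℂ (part (fib n k) a b) :=
    (LinearEquiv.finrank_eq (Submodule.equivMapOfInjective _ hψi (part (fib n k) a b))).symm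
  have e2 : (part (fib n k) a b).map ψ = (forms n a b).map (kill n k).toLinearMap := by
    unfold part
    rw [← Submodule.map_comp]
    rfl
  have hft : Fintype {P : Fin k → ℕ // ∑ i, P i = a} :=
    Fintype.ofEquiv _ (Sym.equivNatSumOfFintype (Fin k) a)
  have hcard : Fintype.card {P : Fin k → ℕ // ∑ i, P i = a} = (k + a - 1).choose a := by
    rw [← Fintype.card_congr (Sym.equivNatSumOfFintype (Fin k) a), Sym.card_sym_eq_choose,
      Fintype.card_fin]
  set g : {P : Fin k → ℕ // ∑ i, P i = a} × Fin (b + 1) → MvPolynomial (Var n) ℂ :=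
    fun i => monomial (emb (extz i.1.1) i.2 (b - i.2)) 1 with hg
  have hmono : ∀ i, g i ∈ forms n a b := by
    intro i
    apply monomial_mem_forms
    · simp only [emb_inl]
      rw [extz_sum hk, i.1.2]
    · simp only [emb_inr0, emb_inr1]
      have := i.2.2
      omega
  have e3 : (forms n a b).map (kill n k).toLinearMap = Submodule.span ℂ (Set.range g) := by
    apply le_antisymm
    · rintro _ ⟨f, hf, rfl⟩
      have : f ∈ (Submodule.span ℂ (Set.range g)).comap (kill n k).toLinearMap := by
        refine forms_induction _ ?_ hf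
        intro m h1 h2
        rw [Submodule.mem_comap]
        change kill n k (monomial m 1) ∈ _
        rw [kill_monomial]
        split_ifs with hm
        · apply Submodule.subset_span
          have hext : ∀ i : Fin n, extz (n := n) (fun j : Fin k => m (Sum.inl (Fin.castLE hk j))) i =
              m (Sum.inl i) := by
            intro i
            rw [extz_apply]
            split_ifs with h
            · rfl
            · exact (hm i (by omega)).symm
          have hsum : ∑ j : Fin k, m (Sum.inl (Fin.castLE hk j)) = a := by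
            rw [← extz_sum hk, ← h1]
            apply Finset.sum_congr rfl
            intro i _
            exact hext i
          refine ⟨⟨⟨fun j => m (Sum.inl (Fin.castLE hk j)), hsum⟩,
            ⟨m (Sum.inr 0), by omega⟩⟩, ?_⟩
          rw [hg]
          simp only
          have : m = emb (extz (fun j : Fin k => m (Sum.inl (Fin.castLE hk j))))
              (m (Sum.inr 0)) (b - m (Sum.inr 0)) := by
            apply eq_emb
            · intro i
              exact (hext i).symm
            · rfl
            · omega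
          rw [← this]
        · exact Submodule.zero_mem _
      exact this
    · rw [Submodule.span_le]
      rintro _ ⟨i, rfl⟩
      refine ⟨g i, hmono i, ?_⟩
      change kill n k (monomial _ 1) = _
      rw [kill_monomial, if_pos]
      intro j hj
      rw [emb_inl, extz_apply, dif_neg (by omega)]
  have hli : LinearIndependent ℂ g := by
    have h := (basisMonomials (Var n) ℂ).linearIndependent
    have hinj : Function.Injective
        (fun i : {P : Fin k → ℕ // ∑ i, P i = a} × Fin (b + 1) =>
          (emb (extz i.1.1) (i.2 : ℕ) (b - i.2) : Var n →₀ ℕ)) := by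
      rintro ⟨P, i⟩ ⟨Q, j⟩ hij
      have h2 := emb_inj hij
      refine Prod.ext (Subtype.ext ?_) (Fin.ext h2.2.1)
      funext r
      have h3 := DFunLike.congr_fun h2.1 (Fin.castLE hk r)
      rw [extz_apply, extz_apply, dif_pos (by simp), dif_pos (by simp)] at h3
      exact h3
    have h2 := h.comp _ hinj
    have e : (basisMonomials (Var n) ℂ) ∘
        (fun i : {P : Fin k → ℕ // ∑ i, P i = a} × Fin (b + 1) =>
          (emb (extz i.1.1) (i.2 : ℕ) (b - i.2) : Var n →₀ ℕ)) = g := by
      funext i
      simp [hg]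
    rw [e] at h2
    exact h2
  rw [← e1, e2, e3, finrank_span_eq_card hli, Fintype.card_prod, Fintype.card_fin, hcard]

lemma prod_poly (m : ℕ) : ∃ E : MvPolynomial (Fin 2) ℝ, (E = 0 ∨ E.totalDegree + 1 ≤ m) ∧
    ∏ i ∈ range m, (X 0 + C ((i : ℝ) + 1)) = X 0 ^ m + E := by
  induction m with
  | zero => exact ⟨0, Or.inl rfl, by simp⟩
  | succ m ih =>
    obtain ⟨E, hE, he⟩ := ih
    refine ⟨E * X 0 + C ((m : ℝ) + 1) * (X 0 ^ m + E), Or.inr ?_, ?_⟩
    · apply Nat.succ_le_succ
      refine (totalDegree_add _ _).trans (max_le ?_ ?_)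
      · rcases hE with rfl | hE
        · simp
        · refine (totalDegree_mul _ _).trans ?_
          rw [totalDegree_X]
          exact hE
      · refine (totalDegree_mul _ _).trans ?_
        rw [totalDegree_C, zero_add]
        refine (totalDegree_add _ _).trans (max_le ?_ ?_)
        · refine (totalDegree_pow _ _).trans ?_
          rw [totalDegree_X, mul_one]
        · rcases hE with rfl | hE
          · simp
          · omega
    · rw [Finset.prod_range_succ, he, pow_succ]
      ring

lemma fib_hilbert {n k : ℕ} (hk1 : 1 ≤ k) (hk : k ≤ n) :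
    HilbertTop k (fun a b => Module.finrank ℂ (part (fib n k) a b)) 0 1 := by
  obtain ⟨m, rfl⟩ : ∃ m, k = m + 1 := ⟨k - 1, by omega⟩
  obtain ⟨E, hE, he⟩ := prod_poly m
  refine ⟨C (1 / (m.factorial : ℝ)) * (E * X 1 + (X 0 ^ m + E)), ?_, 0, ?_⟩
  · apply Nat.lt_succ_of_le
    refine (totalDegree_mul _ _).trans ?_
    rw [totalDegree_C, zero_add]
    refine (totalDegree_add _ _).trans (max_le ?_ ?_)
    · rcases hE with rfl | hE
      · simp
      · refine (totalDegree_mul _ _).trans ?_
        rw [totalDegree_X]
        exact hE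
    · refine (totalDegree_add _ _).trans (max_le ?_ ?_)
      · refine (totalDegree_pow _ _).trans ?_
        rw [totalDegree_X, mul_one]
      · rcases hE with rfl | hE
        · simp
        · omega
  · intro a b _ _
    beta_reduce
    rw [fib_finrank hk]
    have h1 : (m + 1 + a - 1).choose a = (a + m).choose m := by
      have e : m + 1 + a - 1 = a + m := by omega
      rw [e]
      exact Nat.choose_symm_add
    have h2 := Nat.ascFactorial_eq_factorial_mul_choose a m
    have h3 := Nat.ascFactorial_eq_prod_range (a + 1) m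
    have h4 := congrArg (eval ![(a : ℝ), (b : ℝ)]) he
    rw [map_prod] at h4
    simp only [map_add, eval_X, eval_C, map_pow, Matrix.cons_val_zero] at h4
    have h5 : (∏ i ∈ range m, ((a : ℝ) + ((i : ℝ) + 1))) =
        (m.factorial : ℝ) * ((a + m).choose m : ℝ) := by
      rw [← Nat.cast_mul, ← h2, h3, Nat.cast_prod]
      apply Finset.prod_congr rfl
      intro i _
      push_cast
      ring
    rw [h5] at h4
    have hf : (m.factorial : ℝ) ≠ 0 := by positivity
    have h6 : ((a + m).choose m : ℝ) = ((a : ℝ) ^ m + eval ![(a : ℝ), (b : ℝ)] E) /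
        m.factorial := by
      rw [eq_div_iff hf, mul_comm]
      exact h4
    rw [h1, Nat.cast_mul, h6, Nat.factorial_succ, Nat.add_sub_cancel]
    simp only [map_mul, map_add, eval_C, eval_X, map_pow, Matrix.cons_val_zero,
      Matrix.cons_val_one]
    push_cast
    have hm : ((m : ℝ) + 1) ≠ 0 := by positivity
    field_simp
    ring

/-- The inequality between the two degrees of a subvariety of the hypersurface. -/
lemma degree_le {n : ℕ} {I : Ideal (MvPolynomial (Var n) ℂ)} (hI : I.IsPrime) {d e : ℕ}
    {F : MvPolynomial (Var n) ℂ} (hF : F ∈ forms n d e) (hFI : F ∈ I)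
    (hgen : ∀ I : Ideal (MvPolynomial (Var n) ℂ), (∀ j : Fin n, cf F j ∈ I) →
      ∀ i : Fin n, ∃ N : ℕ, (X (Sum.inl i) : MvPolynomial (Var n) ℂ) ^ N ∈ I)
    (hn : n ≤ e + 1) {k d₁ d₂ : ℕ} (hne : d₁ ≠ 0 ∨ d₂ ≠ 0)
    (hh : HilbertTop k (fun a b => Module.finrank ℂ (part I a b)) d₁ d₂) :
    d₂ ≤ d * d₁ := by
  by_cases hall : ∀ j : Fin n, cf F j ∈ I
  · exfalso
    have hx : ∀ i : Fin n, (X (Sum.inl i) : MvPolynomial (Var n) ℂ) ∈ I := by
      intro i
      obtain ⟨M, hM⟩ := hgen I hall i
      exact hI.mem_of_pow_mem _ hM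
    have h1 := hh.compare (D := 0) 1 0 ⟨1, fun a b ha _ => by
      rw [finrank_eq_zero hx _ _ (by omega)]
      exact Nat.zero_le _⟩
    have h2 := hh.compare (D := 0) 0 1 ⟨1, fun a b ha _ => by
      rw [finrank_eq_zero hx _ _ (by omega)]
      exact Nat.zero_le _⟩
    push_cast at h1 h2
    have h3 : (d₁ : ℝ) ≤ 0 := by linarith
    have h4 : (d₂ : ℝ) ≤ 0 := by linarith
    have h5 : d₁ ≤ 0 := by exact_mod_cast h3
    have h6 : d₂ ≤ 0 := by exact_mod_cast h4
    omega
  · push Not at hall
    obtain ⟨j, hj⟩ := hall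
    by_cases ht : (X (Sum.inr 1) : MvPolynomial (Var n) ℂ) ∈ I
    · have h1 := hh.compare (D := 0) 0 1 ⟨0, fun a b _ _ => by
        have := finrank_le_two hI ht (a + 0) (b + 1) (by omega)
        rw [Nat.add_sub_cancel] at this
        exact this⟩
      push_cast at h1
      have h3 : (d₂ : ℝ) ≤ 0 := by linarith
      have h4 : d₂ ≤ 0 := by exact_mod_cast h3
      exact h4.trans (Nat.zero_le _)
    · have h1 := hh.compare (D := d) 0 1 ⟨e, fun a b _ hb => by
        have := finrank_le_one hI hF hFI ht ⟨j, by have := j.2; omega, hj⟩ (a + 0) (b + 1)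
          (by omega)
        rw [Nat.add_sub_cancel] at this
        exact this⟩
      push_cast at h1
      have h3 : (d₂ : ℝ) ≤ ((d * d₁ : ℕ) : ℝ) := by
        push_cast
        linarith
      exact_mod_cast h3

end Pool.Agent.Q120.EC
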