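import Pool.Agent.Q120.EC.Basic

/-!
# The inequality `H2 . C ≤ d (H1 . C)` for curves on a hypersurface of bidegree `(d, e)`
-/

set_option autoImplicit false

namespace Pool.Agent.Q120.EC

open MvPolynomial Finset

lemma forms_le_span (n a b : ℕ) : forms n a b ≤ Submodule.span ℂ
    ((fun m => monomial m (1 : ℂ)) '' ((Finset.univ : Finset (Var n)).finsuppAntidiag (a + b) :
      Set (Var n →₀ ℕ))) := by
  intro f hf
  refine forms_induction _ ?_ hf
  intro m h1 h2
  apply Submodule.subset_span
  refine ⟨m, ?_, rfl⟩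
  rw [mem_coe, mem_finsuppAntidiag]
  refine ⟨?_, by simp⟩
  have e : Finset.sum univ (m : Var n → ℕ) = a + b := by
    rw [Fintype.sum_sum_type, Fin.sum_univ_two, h1, h2]
  exact e

instance finite_forms (n a b : ℕ) : FiniteDimensional ℂ (forms n a b) := by
  have h : FiniteDimensional ℂ (Submodule.span ℂ
    ((fun m => monomial m (1 : ℂ)) '' ((Finset.univ : Finset (Var n)).finsuppAntidiag (a + b) :
      Set (Var n →₀ ℕ)))) := by
    apply FiniteDimensional.span_of_finite
    exact Set.Finite.image _ (Finset.finite_toSet _)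
  exact Submodule.finiteDimensional_of_le (forms_le_span n a b)

instance finite_part {n : ℕ} (I : Ideal (MvPolynomial (Var n) ℂ)) (a b : ℕ) :
    FiniteDimensional ℂ (part I a b) := by
  unfold part
  infer_instance

variable {n : ℕ} {I : Ideal (MvPolynomial (Var n) ℂ)}

lemma mem_part {a b : ℕ} {f : MvPolynomial (Var n) ℂ} (hf : f ∈ forms n a b) :
    Ideal.Quotient.mk I f ∈ part I a b := ⟨f, hf, rfl⟩

lemma finrank_le_of_mul (hI : I.IsPrime) {a b a' b' : ℕ} {u t : MvPolynomial (Var n) ℂ}
    (hu : u ∉ I) (h : ∀ m : Var n →₀ ℕ, ∑ i, m (Sum.inl i) = a →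
      m (Sum.inr 0) + m (Sum.inr 1) = b → ∃ g ∈ forms n a' b', u * monomial m 1 - t * g ∈ I) :
    Module.finrank ℂ (part I a b) ≤ Module.finrank ℂ (part I a' b') := by
  have hdom : IsDomain (MvPolynomial (Var n) ℂ ⧸ I) := Ideal.Quotient.isDomain I
  set π := Ideal.Quotient.mk I with hπ
  have hu' : π u ≠ 0 := by
    intro h0
    exact hu (Ideal.Quotient.eq_zero_iff_mem.1 h0)
  have hinj : Function.Injective (LinearMap.mulLeft ℂ (π u)) := by
    intro x y hxy
    exact mul_left_cancel₀ hu' hxy
  have e1 : Module.finrank ℂ ((part I a b).map (LinearMap.mulLeft ℂ (π u))) =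
      Module.finrank ℂ (part I a b) :=
    (LinearEquiv.finrank_eq (Submodule.equivMapOfInjective _ hinj (part I a b))).symm
  have e2 : (part I a b).map (LinearMap.mulLeft ℂ (π u)) ≤
      (part I a' b').map (LinearMap.mulLeft ℂ (π t)) := by
    rintro _ ⟨_, ⟨f, hf, rfl⟩, rfl⟩
    set V : Submodule ℂ (MvPolynomial (Var n) ℂ) :=
      ((part I a' b').map (LinearMap.mulLeft ℂ (π t))).comap
        ((LinearMap.mulLeft ℂ (π u)).comp (Ideal.Quotient.mkₐ ℂ I).toLinearMap) with hV
    have hfV : f ∈ V := by
      refine forms_induction V ?_ hf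
      intro m h1 h2
      obtain ⟨g, hg, hug⟩ := h m h1 h2
      rw [hV, Submodule.mem_comap]
      refine ⟨π g, mem_part hg, ?_⟩
      have h3 : π (u * monomial m 1) = π (t * g) := Ideal.Quotient.eq.2 hug
      change π t * π g = π u * π (monomial m 1)
      rw [← map_mul, ← map_mul, h3]
    exact hfV
  rw [← e1]
  refine (Submodule.finrank_mono e2).trans ?_
  exact Submodule.finrank_map_le _ _

/-- If the top coefficient is removed, the remainder of the equation is divisible by `t`. -/
lemma top_relation (hI : I.IsPrime) {d e : ℕ} {F : MvPolynomial (Var n) ℂ}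
    (hF : F ∈ forms n d e) (hFI : F ∈ I) (ht : (X (Sum.inr 1) : MvPolynomial (Var n) ℂ) ∉ I)
    {J : ℕ} (hJe : J ≤ e) (hJ : cf F J ∉ I) (hJ' : ∀ j, J < j → j ≤ e → cf F j ∈ I) :
    1 ≤ J ∧ ∃ H ∈ forms n d (J - 1),
      cf F J * X (Sum.inr 0) ^ J + X (Sum.inr 1) * H ∈ I := by
  set s : MvPolynomial (Var n) ℂ := X (Sum.inr 0) with hs
  set t : MvPolynomial (Var n) ℂ := X (Sum.inr 1) with htd
  have h1 : ∑ j ∈ range (J + 1), cf F j * (s ^ j * t ^ (e - j)) ∈ I := by
    have h2 := eq_sum_cf hF
    have h3 : ∑ j ∈ range (e + 1), cf F j * (s ^ j * t ^ (e - j)) =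
        ∑ j ∈ range (J + 1), cf F j * (s ^ j * t ^ (e - j)) +
        ∑ j ∈ Ico (J + 1) (e + 1), cf F j * (s ^ j * t ^ (e - j)) := by
      rw [Finset.sum_range_add_sum_Ico _ (by omega)]
    rw [h3] at h2
    have h4 : ∑ j ∈ Ico (J + 1) (e + 1), cf F j * (s ^ j * t ^ (e - j)) ∈ I := by
      apply Ideal.sum_mem
      intro j hj
      rw [mem_Ico] at hj
      exact I.mul_mem_right _ (hJ' j (by omega) (by omega))
    have h5 : ∑ j ∈ range (J + 1), cf F j * (s ^ j * t ^ (e - j)) = F -
        ∑ j ∈ Ico (J + 1) (e + 1), cf F j * (s ^ j * t ^ (e - j)) := by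
      rw [eq_sub_iff_add_eq]
      exact h2.symm
    rw [h5]
    exact I.sub_mem hFI h4
  have h6 : ∑ j ∈ range (J + 1), cf F j * (s ^ j * t ^ (e - j)) =
      t ^ (e - J) * ∑ j ∈ range (J + 1), cf F j * (s ^ j * t ^ (J - j)) := by
    rw [Finset.mul_sum]
    apply Finset.sum_congr rfl
    intro j hj
    rw [mem_range] at hj
    have : e - j = (e - J) + (J - j) := by omega
    rw [this, pow_add]
    ring
  rw [h6] at h1
  have h7 : ∑ j ∈ range (J + 1), cf F j * (s ^ j * t ^ (J - j)) ∈ I := by
    rcases hI.mem_or_mem h1 with h | h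
    · exact absurd (hI.mem_of_pow_mem _ h) ht
    · exact h
  have hJ1 : 1 ≤ J := by
    by_contra hcon
    have : J = 0 := by omega
    subst this
    simp only [zero_add, range_one, sum_singleton, pow_zero, Nat.sub_self, mul_one] at h7
    exact hJ h7
  refine ⟨hJ1, ∑ j ∈ range J, cf F j * (s ^ j * t ^ (J - 1 - j)), ?_, ?_⟩
  · apply Submodule.sum_mem
    intro j hj
    rw [mem_range] at hj
    have h8 := mul_mem_forms (cf_mem hF j)
      (mul_mem_forms (pow_mem_forms (S_mem n 0) j) (pow_mem_forms (S_mem n 1) (J - 1 - j)))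
    have e1 : d + (j * 0 + (J - 1 - j) * 0) = d := by ring
    have e2 : 0 + (j * 1 + (J - 1 - j) * 1) = J - 1 := by omega
    rw [e1, e2] at h8
    exact h8
  · rw [Finset.sum_range_succ] at h7
    have h9 : t * ∑ j ∈ range J, cf F j * (s ^ j * t ^ (J - 1 - j)) =
        ∑ j ∈ range J, cf F j * (s ^ j * t ^ (J - j)) := by
      rw [Finset.mul_sum]
      apply Finset.sum_congr rfl
      intro j hj
      rw [mem_range] at hj
      have : J - j = (J - 1 - j) + 1 := by omega
      rw [this, pow_succ]
      ring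
    rw [h9]
    have h10 : cf F J * s ^ J + ∑ j ∈ range J, cf F j * (s ^ j * t ^ (J - j)) =
        ∑ j ∈ range J, cf F j * (s ^ j * t ^ (J - j)) + cf F J * (s ^ J * t ^ (J - J)) := by
      rw [Nat.sub_self, pow_zero, mul_one, add_comm]
    rw [h10]
    exact h7

/-- Case `t ≠ 0` on the curve. -/
lemma finrank_le_one (hI : I.IsPrime) {d e : ℕ} {F : MvPolynomial (Var n) ℂ}
    (hF : F ∈ forms n d e) (hFI : F ∈ I) (ht : (X (Sum.inr 1) : MvPolynomial (Var n) ℂ) ∉ I)
    (hne : ∃ j ≤ e, cf F j ∉ I) (a b : ℕ) (hb : e ≤ b) :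
    Module.finrank ℂ (part I a b) ≤ Module.finrank ℂ (part I (a + d) (b - 1)) := by
  classical
  obtain ⟨J, hJ⟩ : ∃ J, J ∈ (range (e + 1)).filter (fun j => cf F j ∉ I) ∧
      ∀ j ∈ (range (e + 1)).filter (fun j => cf F j ∉ I), j ≤ J := by
    have hn : ((range (e + 1)).filter (fun j => cf F j ∉ I)).Nonempty := by
      obtain ⟨j, hj, hj'⟩ := hne
      exact ⟨j, by rw [mem_filter, mem_range]; exact ⟨by omega, hj'⟩⟩
    exact ⟨_, Finset.max'_mem _ hn, fun j hj => Finset.le_max' _ j hj⟩
  rw [mem_filter, mem_range] at hJ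
  have hJ' : ∀ j, J < j → j ≤ e → cf F j ∈ I := by
    intro j h1 h2
    by_contra h3
    have := hJ.2 j (by rw [mem_filter, mem_range]; exact ⟨by omega, h3⟩)
    omega
  obtain ⟨hJ1, H, hH, hrel⟩ := top_relation hI hF hFI ht (by omega) hJ.1.2 hJ'
  refine finrank_le_of_mul hI (u := cf F J) (t := X (Sum.inr 1)) hJ.1.2 ?_
  intro m h1 h2
  by_cases hm : 1 ≤ m (Sum.inr 1)
  · refine ⟨cf F J * monomial (m - Finsupp.single (Sum.inr 1) 1) 1, ?_, ?_⟩
    · have h3 : monomial (m - Finsupp.single (Sum.inr 1) 1) (1 : ℂ) ∈ forms n a (b - 1) := by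
        apply monomial_mem_forms
        · rw [← h1]
          apply Finset.sum_congr rfl
          intro i _
          simp
        · simp
          omega
      have h4 := mul_mem_forms (cf_mem hF J) h3
      rw [add_comm d a, zero_add] at h4
      exact h4
    · have e1 : monomial m (1 : ℂ) = X (Sum.inr 1) * monomial (m - Finsupp.single (Sum.inr 1) 1) 1 := by
        rw [X, monomial_mul, one_mul]
        congr 2
        ext v
        rcases v with i | v
        · simp
        · fin_cases v
          · simp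
          · simp
            omega
      rw [e1]
      have : cf F J * (X (Sum.inr 1) * monomial (m - Finsupp.single (Sum.inr 1) 1) 1) -
          X (Sum.inr 1) * (cf F J * monomial (m - Finsupp.single (Sum.inr 1) 1) 1) = 0 := by ring
      rw [this]
      exact I.zero_mem
  · have hm0 : m (Sum.inr 1) = 0 := by omega
    refine ⟨-(H * monomial (m - Finsupp.single (Sum.inr 0) J) 1), ?_, ?_⟩
    · have h3 : monomial (m - Finsupp.single (Sum.inr 0) J) (1 : ℂ) ∈ forms n a (b - J) := by
        apply monomial_mem_forms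
        · rw [← h1]
          apply Finset.sum_congr rfl
          intro i _
          simp
        · simp
          omega
      have h4 := mul_mem_forms hH h3
      have e2 : J - 1 + (b - J) = b - 1 := by omega
      rw [add_comm d a, e2] at h4
      exact Submodule.neg_mem _ h4
    · have e1 : monomial m (1 : ℂ) =
          X (Sum.inr 0) ^ J * monomial (m - Finsupp.single (Sum.inr 0) J) 1 := by
        rw [X_pow_eq_monomial, monomial_mul, one_mul]
        congr 2
        ext v
        rcases v with i | v
        · simp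
        · fin_cases v
          · simp
            omega
          · simp
      rw [e1]
      have e3 : cf F J * (X (Sum.inr 0) ^ J * monomial (m - Finsupp.single (Sum.inr 0) J) 1) -
          X (Sum.inr 1) * -(H * monomial (m - Finsupp.single (Sum.inr 0) J) 1) =
          (cf F J * X (Sum.inr 0) ^ J + X (Sum.inr 1) * H) *
            monomial (m - Finsupp.single (Sum.inr 0) J) 1 := by ring
      rw [e3]
      exact I.mul_mem_right _ hrel

/-- Case `t = 0` on the curve. -/
lemma finrank_le_two (hI : I.IsPrime) (ht : (X (Sum.inr 1) : MvPolynomial (Var n) ℂ) ∈ I)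
    (a b : ℕ) (hb : 1 ≤ b) :
    Module.finrank ℂ (part I a b) ≤ Module.finrank ℂ (part I a (b - 1)) := by
  refine finrank_le_of_mul hI (u := 1) (t := X (Sum.inr 0)) ?_ ?_
  · intro h
    exact hI.ne_top ((Ideal.eq_top_iff_one I).2 h)
  intro m h1 h2
  by_cases hm : 1 ≤ m (Sum.inr 1)
  · refine ⟨0, Submodule.zero_mem _, ?_⟩
    have e1 : monomial m (1 : ℂ) = X (Sum.inr 1) * monomial (m - Finsupp.single (Sum.inr 1) 1) 1 := by
      rw [X, monomial_mul, one_mul]
      congr 2
      ext v
      rcases v with i | v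
      · simp
      · fin_cases v
        · simp
        · simp
          omega
    rw [e1, mul_zero, sub_zero, one_mul]
    exact I.mul_mem_right _ ht
  · refine ⟨monomial (m - Finsupp.single (Sum.inr 0) 1) 1, ?_, ?_⟩
    · apply monomial_mem_forms
      · rw [← h1]
        apply Finset.sum_congr rfl
        intro i _
        simp
      · simp
        omega
    · have e1 : monomial m (1 : ℂ) =
          X (Sum.inr 0) * monomial (m - Finsupp.single (Sum.inr 0) 1) 1 := by
        rw [X, monomial_mul, one_mul]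
        congr 2
        ext v
        rcases v with i | v
        · simp
        · fin_cases v
          · simp
            omega
          · simp
      rw [e1, one_mul, sub_self]
      exact I.zero_mem

/-- If all `x_i` vanish on the curve there is nothing left in positive bidegree. -/
lemma finrank_eq_zero (hx : ∀ i : Fin n, (X (Sum.inl i) : MvPolynomial (Var n) ℂ) ∈ I)
    (a b : ℕ) (ha : 1 ≤ a) : Module.finrank ℂ (part I a b) = 0 := by
  have h : part I a b = ⊥ := by
    rw [eq_bot_iff]
    rintro _ ⟨f, hf, rfl⟩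
    have hfI : f ∈ I.restrictScalars ℂ := by
      refine forms_induction (I.restrictScalars ℂ) ?_ hf
      intro m h1 _
      obtain ⟨i, hi⟩ : ∃ i : Fin n, m (Sum.inl i) ≠ 0 := by
        by_contra hcon
        push Not at hcon
        rw [Finset.sum_eq_zero (fun i _ => hcon i)] at h1
        omega
      have e1 : monomial m (1 : ℂ) =
          X (Sum.inl i) * monomial (m - Finsupp.single (Sum.inl i) 1) 1 := by
        rw [X, monomial_mul, one_mul]
        congr 2
        ext v
        by_cases hv : v = Sum.inl i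
        · subst hv
          simp
          omega
        · simp [Ne.symm hv]
      rw [Submodule.restrictScalars_mem, e1]
      exact I.mul_mem_right _ (hx i)
    rw [Submodule.restrictScalars_mem] at hfI
    rw [Submodule.mem_bot]
    exact Ideal.Quotient.eq_zero_iff_mem.2 hfI
  rw [h, finrank_bot]

end Pool.Agent.Q120.EC
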